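import Pool.Agent.H8.UG.Defs

/-!
# MP_404602_al: uniserial dimension and base change, the targets of the board ubg
-/

open CategoryTheory TensorProduct

namespace Pool.Agent.H8.UG

open Pool.Agent.H8.UB Pool.Agent.H56.UDs

universe w v u

/-- lattices: each element `c` of `L` has a least `e b` above it, which lies below the join of the
`τ i c` -/
def G_SPL : Prop := ∀ (M : Type u) (L : Type v) [Lattice M] [Lattice L] [IsModularLattice L]
  (e : M → L) (d : ℕ) (τ τ' : Fin d → L → L), 0 < d → (∀ x y, e (x ⊓ y) = e x ⊓ e y) →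
  (∀ x y, e x ≤ e y ↔ x ≤ y) → (∀ i x y, x ≤ y → τ i x ≤ τ i y) →
  (∀ i x y, x ≤ y → τ' i x ≤ τ' i y) → (∀ i x, τ i (τ' i x) = x) → (∀ i x, τ' i (τ i x) = x) →
  (∀ i x, τ i (e x) = e x) →
  (∀ c : L, ∃ b : M, c ≤ e b ∧ ∀ D : L, (∀ i, τ i c ≤ D) → e b ≤ D) →
  ∀ (γ : Ordinal.{w}) (a b : M), St γ (e a) (e b) → St ((d : Ordinal.{w}) * γ) a b

def G_RSF : Prop := ∀ (S T : Type) [Ring S] [Ring T] [IsNoetherianRing S] (f : S →+* T)
  (hf : FinHom f) (A : Sub (UF S)), A.FG → (rsSub hf A).FG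

def G_EMB : Prop := ∀ (S T : Type) [Ring S] [Ring T] [IsNoetherianRing S] (f : S →+* T)
  (hf : FinHom f), (∃ r : T →+ S, (∀ a t, r (f a * t) = a * r t) ∧
    (∀ a t, r (t * f a) = r t * a) ∧ r 1 = 1) →
  ∀ A B : Sub (UF S), A.FG → B.FG → rsSub hf A ≤ rsSub hf B → A ≤ B

def G_TWI : Prop := ∀ (T : Type) [Ring T] (σ : T ≃+* T),
  (∀ A B : Sub (UF T), A ≤ B → rsSub (finHom_equiv σ) A ≤ rsSub (finHom_equiv σ) B) ∧
  (∀ A : Sub (UF T), rsSub (finHom_equiv σ) (rsSub (finHom_equiv σ.symm) A) = A) ∧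
  (∀ A : Sub (UF T), rsSub (finHom_equiv σ.symm) (rsSub (finHom_equiv σ) A) = A) ∧
  ∀ (S : Type) [Ring S] (f : S →+* T) (hf : FinHom f), (∀ a, σ (f a) = f a) →
    ∀ A : Sub (UF S), rsSub (finHom_equiv σ) (rsSub hf A) = rsSub hf A

def G_SPN : Prop := ∀ (S T : Type) [Ring S] [Ring T] (f : S →+* T) (d : ℕ)
  (σ : Fin d → (T ≃+* T)) (h : FD f d σ) (A : Sub (UF T)), A.FG →
  ∃ B : Sub (UF S), B.FG ∧ A ≤ rsSub h.fin B ∧
    ∀ D : Sub (UF T), (∀ i, rsSub (finHom_equiv (σ i)) A ≤ D) → rsSub h.fin B ≤ D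

def G_GEN : Prop := ∀ (S T : Type) [Ring S] [Ring T] [IsNoetherianRing S] [IsNoetherianRing T]
  (f : S →+* T) (d : ℕ) (σ : Fin d → (T ≃+* T)), FD f d σ → 0 < d → ∀ ρ' : Ordinal.{0},
  UDl T = ρ' → ∃ ρ : Ordinal.{0}, UDl S = ρ ∧ ρ + 1 ≤ (d : Ordinal.{0}) * (ρ' + 1)

def G_MOR : Prop := ∀ (S : Type) [Ring S] (d : ℕ), 0 < d →
  UDl (Matrix (Fin d) (Fin d) S) = UDl S

/-- dual bases for the trace form -/
def G_TRD : Prop := ∀ (k K : Type) [Field k] [Field K] [Algebra k K] [FiniteDimensional k K]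
  [Algebra.IsSeparable k K] (b : Module.Basis (Fin (Module.finrank k K)) k K),
  ∃ a : Fin (Module.finrank k K) → K,
    (∀ x : K, ∃ c : Fin (Module.finrank k K) → Fin (Module.finrank k K) → k,
      (∀ i, b i * x = ∑ j, c i j • b j) ∧ ∀ j, x * a j = ∑ i, c i j • a i) ∧
    ∑ i, a i * b i = 1 ∧
    (IsGalois k K → ∑ i, (∑ g : Gal(K/k), g (a i)) * b i = 1 ∧
      ∀ x : K, ∃ t : k, ∑ g : Gal(K/k), g x = algebraMap k K t)

def G_GD1 : Prop := ∀ (k K : Type) [Field k] [Field K] [Algebra k K] [FiniteDimensional k K]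
  [IsGalois k K] (S : Type) [Ring S] [Algebra k S],
  ∃ σ : Fin (Module.finrank k K) → ((K ⊗[k] S) ≃+* (K ⊗[k] S)),
    FD (Algebra.TensorProduct.includeRight : S →ₐ[k] K ⊗[k] S).toRingHom (Module.finrank k K) σ

/-- `K ⊗ S` as matrices over `S` -/
def G_GMH : Prop := ∀ (k K : Type) [Field k] [Field K] [Algebra k K] [FiniteDimensional k K]
  (b : Module.Basis (Fin (Module.finrank k K)) k K) (S : Type) [Ring S] [Algebra k S],
  ∃ g : (K ⊗[k] S) →+*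
      Matrix (Fin (Module.finrank k K)) (Fin (Module.finrank k K)) S,
    ∀ (x : K) (s : S) i j, g (x ⊗ₜ[k] s) i j = algebraMap k S (b.repr (x * b j) i) * s

def G_GD2 : Prop := ∀ (k K : Type) [Field k] [Field K] [Algebra k K] [FiniteDimensional k K]
  [Algebra.IsSeparable k K] (S : Type) [Ring S] [Algebra k S],
  ∃ (g : (K ⊗[k] S) →+* Matrix (Fin (Module.finrank k K)) (Fin (Module.finrank k K)) S)
    (σ : Fin (Module.finrank k K) →
      (Matrix (Fin (Module.finrank k K)) (Fin (Module.finrank k K)) S ≃+*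
        Matrix (Fin (Module.finrank k K)) (Fin (Module.finrank k K)) S)),
    FD g (Module.finrank k K) σ

/-- Theorem 3: separable base change -/
def G_GBC : Prop := ∀ (k K : Type) [Field k] [Field K] [Algebra k K] [FiniteDimensional k K]
  [Algebra.IsSeparable k K], ∃ c : ℕ, (IsGalois k K → c = Module.finrank k K) ∧
  ∀ (R : Type) [Ring R] [Algebra k R] [IsNoetherianRing Rᵐᵒᵖ],
    (UD (K ⊗[k] R) = ⊤ ↔ UD R = ⊤) ∧ ∀ ρ ρ' : Ordinal.{0}, UD R = ρ → UD (K ⊗[k] R) = ρ' →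
      ρ' + 1 ≤ (Module.finrank k K : Ordinal.{0}) * (ρ + 1) ∧
      ρ + 1 ≤ (c : Ordinal.{0}) * (ρ' + 1)

/-- Theorem 1 with the real closed fields -/
def G_GRC : Prop := ∃ β : Ordinal.{0}, β.card ≤ Cardinal.aleph0 ∧
  (∀ (k : Type) [Field k] (R : Type) [Ring R] [Algebra k R] [Module.Finite k R],
    UD (AlgebraicClosure k ⊗[k] R) = ⊤ ∨ ∃ α : Ordinal.{0}, α < β ∧ UD R = α) ∧
  ∀ (k : Type) [Field k] [PerfectField k] [FiniteDimensional k (AlgebraicClosure k)] (R : Type)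
    [Ring R] [Algebra k R] [Module.Finite k R],
    UD R = ⊤ ∨ ∃ α : Ordinal.{0}, α < β ∧ UD R = α

end Pool.Agent.H8.UG
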