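import Pool.Agent.H11.UBG.RSF

/-! # Row EMB: restriction reflects the order -/

set_option autoImplicit false

open CategoryTheory

namespace Pool.Agent.H8.UG

open Pool.Agent.H8.UB Pool.Agent.H56.UDs

theorem pf_EMB : G_EMB := by
  intro S T _ _ _ f hf hr A B hA hB h
  obtain ⟨r, h1, h2, h3⟩ := hr
  obtain ⟨c, rfl⟩ := Pool.Agent.H78.UB.pf_CDE S A hA
  obtain ⟨d, rfl⟩ := Pool.Agent.H78.UB.pf_CDE S B hB
  rw [Pool.Agent.H11.UBG.rsSub_fn hf c, Pool.Agent.H11.UBG.rsSub_fn hf d] at h
  obtain ⟨p, q, z, e1, e2⟩ := ((Pool.Agent.H10.UB.pf_CDG T).2 _ _).1 h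
  refine ((Pool.Agent.H10.UB.pf_CDG S).2 _ _).2
    ⟨fun i => r (p i), fun i t => r (q i t), fun j l => r (z j l), ?_, ?_⟩
  · intro j
    have e := congrArg r (e1 j)
    rw [map_add, map_sum, map_sum] at e
    have ea : r ((d.map f).a j) = d.a j := by
      have e0 := h1 (d.a j) 1
      rw [mul_one, h3, mul_one] at e0
      exact e0
    rw [ea] at e
    have eb : ∀ i, r ((d.map f).b j i * p i) = d.b j i * r (p i) := fun i => h1 _ _
    have ec : ∀ l, r (z j l * (c.map f).a l) = r (z j l) * c.a l := fun l => h2 _ _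
    rw [Finset.sum_congr rfl (fun i _ => eb i), Finset.sum_congr rfl (fun l _ => ec l)] at e
    exact e
  · intro j t
    have e := congrArg r (e2 j t)
    rw [map_sum, map_sum] at e
    have eb : ∀ i, r ((d.map f).b j i * q i t) = d.b j i * r (q i t) := fun i => h1 _ _
    have ec : ∀ l, r (z j l * (c.map f).b l t) = r (z j l) * c.b l t := fun l => h2 _ _
    rw [Finset.sum_congr rfl (fun i _ => eb i), Finset.sum_congr rfl (fun l _ => ec l)] at e
    exact e

end Pool.Agent.H8.UG
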