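import Pool.Agent.H8.UG.Targets
import Pool.Agent.H8.UB.All

/-!
# MP_404602_al, row GEN: the general theorem
-/

open CategoryTheory

namespace Pool.Agent.H8.UG

open Pool.Agent.H8.UB Pool.Agent.H56.UDs

theorem rsSub_mono {S T : Type} [Ring S] [Ring T] {f : S →+* T} (hf : FinHom f)
    {A B : Sub (UF S)} (h : A ≤ B) : rsSub hf A ≤ rsSub hf B := fun M _ hx =>
  h ((resF hf).obj M) hx

theorem rk_le {L : Type 1} [Lattice L] [BoundedOrder L] {α : Ordinal.{0}}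
    (h : St (α + 1) (⊥ : L) ⊤) : ∃ ρ : Ordinal.{0}, rk.{0} L = ρ ∧ ρ ≤ α := by
  have hex : ∃ α : Ordinal.{0}, St (α + 1) (⊥ : L) ⊤ := ⟨α, h⟩
  refine ⟨sInf {α : Ordinal.{0} | St (α + 1) (⊥ : L) ⊤}, ?_, csInf_le' h⟩
  rw [rk, if_pos hex]

theorem rk_st {L : Type 1} [Lattice L] [BoundedOrder L] {ρ : Ordinal.{0}}
    (h : rk.{0} L = ρ) : St (ρ + 1) (⊥ : L) ⊤ := by
  by_cases hex : ∃ α : Ordinal.{0}, St (α + 1) (⊥ : L) ⊤
  · rw [rk, if_pos hex] at h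
    have h1 : sInf {α : Ordinal.{0} | St (α + 1) (⊥ : L) ⊤} = ρ := by exact_mod_cast h
    rw [← h1]
    exact csInf_mem (s := {α : Ordinal.{0} | St (α + 1) (⊥ : L) ⊤}) hex
  · rw [rk, if_neg hex] at h
    exact absurd h (WithTop.top_ne_coe)

theorem pf_GEN (hSPL : G_SPL.{0, 1, 1}) (hRSF : G_RSF) (hEMB : G_EMB) (hTWI : G_TWI)
    (hSPN : G_SPN) : G_GEN := by
  intro S T _ _ _ _ f d σ h hd ρ' hρ'
  have hCS : Coh (FGModuleCat.{0} S) := (pf_MOC S).1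
  have hCT : Coh (FGModuleCat.{0} T) := (pf_MOC T).1
  have hUS : Fact (IsFP (UF S)) := ⟨(pf_MOC S).2.1⟩
  have hUT : Fact (IsFP (UF T)) := ⟨(pf_MOC T).2.1⟩
  rw [all_MOU T] at hρ'
  have h1 := rk_st hρ'
  obtain ⟨e, he⟩ : ∃ e : LL (UF S) → LL (UF T),
    ∀ A, e A = ⟨rsSub h.fin A.1, hRSF S T f h.fin A.1 A.2⟩ := ⟨_, fun _ => rfl⟩
  have hbot : e ⊥ = ⊥ := (he ⊥).trans (ll_ext rfl)
  have htop : e ⊤ = ⊤ := (he ⊤).trans (ll_ext rfl)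
  have key := hSPL (LL (UF S)) (LL (UF T)) e d
    (fun i A => ⟨rsSub (finHom_equiv (σ i)) A.1, hRSF T T _ _ A.1 A.2⟩)
    (fun i A => ⟨rsSub (finHom_equiv (σ i).symm) A.1, hRSF T T _ _ A.1 A.2⟩) hd
    (fun x y => by rw [he, he, he]; rfl)
    (fun x y => by
      rw [he, he]
      exact ⟨fun hxy => hEMB S T f h.fin h.ret x.1 y.1 x.2 y.2 hxy, fun hxy =>
        rsSub_mono h.fin hxy⟩)
    (fun i x y hxy => (hTWI T (σ i)).1 x.1 y.1 hxy)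
    (fun i x y hxy => (hTWI T (σ i).symm).1 x.1 y.1 hxy)
    (fun i x => ll_ext ((hTWI T (σ i)).2.1 x.1))
    (fun i x => ll_ext ((hTWI T (σ i)).2.2.1 x.1))
    (fun i x => by
      rw [he]
      exact ll_ext ((hTWI T (σ i)).2.2.2 S f h.fin (h.fix i) x.1))
    (fun c => by
      obtain ⟨B, hB, h2, h3⟩ := hSPN S T f d σ h c.1 c.2
      refine ⟨⟨B, hB⟩, ?_, fun D hD => ?_⟩
      · rw [he]
        exact h2
      · rw [he]
        exact h3 D.1 fun i => hD i)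
    (ρ' + 1) ⊥ ⊤
  rw [hbot, htop] at key
  have h4 := key h1
  obtain ⟨m, rfl⟩ : ∃ m, d = m + 1 := ⟨d - 1, by omega⟩
  have h5 : ((m + 1 : ℕ) : Ordinal.{0}) * (ρ' + 1) =
      (((m + 1 : ℕ) : Ordinal.{0}) * ρ' + (m : Ordinal.{0})) + 1 := by
    rw [mul_add, mul_one, add_assoc, Nat.cast_succ]
  rw [h5] at h4 ⊢
  obtain ⟨ρ, hρ, hle⟩ := rk_le h4
  refine ⟨ρ, ?_, add_le_add_left hle 1⟩
  rw [all_MOU S, hρ]

end Pool.Agent.H8.UG
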