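import Pool.Agent.H8.UG.Targets
import Pool.Agent.H8.UB.LAX

/-!
# MP_404602_al, row SPL: the span lemma for lattices
-/

namespace Pool.Agent.H8.UG

open Pool.Agent.H8.UB

universe w v u

section

variable {L : Type v} [Lattice L] [IsModularLattice L] {d : ℕ}

/-- `a` joined with the first `j` translates of `c` -/
def dj (τ : Fin d → L → L) (a c : L) : ℕ → L
  | 0 => a
  | j + 1 => if h : j < d then dj τ a c j ⊔ τ ⟨j, h⟩ c else dj τ a c j

omit [IsModularLattice L] in
theorem dj_le (τ : Fin d → L → L) (a c : L) (j : ℕ) : a ≤ dj τ a c j := by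
  induction j with
  | zero => exact le_rfl
  | succ j ih =>
    rw [dj]
    split_ifs with h
    · exact ih.trans le_sup_left
    · exact ih

omit [IsModularLattice L] in
theorem dj_mono (τ : Fin d → L → L) (a c : L) {i j : ℕ} (h : i ≤ j) :
    dj τ a c i ≤ dj τ a c j := by
  induction j, h using Nat.le_induction with
  | base => exact le_rfl
  | succ j _ ih =>
    refine ih.trans ?_
    rw [dj]
    split_ifs
    · exact le_sup_left
    · exact le_rfl

omit [IsModularLattice L] in
theorem le_dj (τ : Fin d → L → L) (a c : L) (i : Fin d) : τ i c ≤ dj τ a c d := by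
  refine le_trans ?_ (dj_mono τ a c (Nat.succ_le_of_lt i.2))
  rw [Nat.succ_eq_add_one, dj, dif_pos i.2]
  exact le_sup_right

theorem dj_step {τ τ' : Fin d → L → L} {a c : L} {g : Ordinal.{w}}
    (hτ : ∀ i x y, x ≤ y → τ i x ≤ τ i y) (hτ' : ∀ i x y, x ≤ y → τ' i x ≤ τ' i y)
    (h1 : ∀ i x, τ i (τ' i x) = x) (h2 : ∀ i x, τ' i (τ i x) = x) (ha : ∀ i, τ i a = a)
    (hac : a ≤ c) (hu : Un g a c) (j : ℕ) (hj : j < d) :
    dj τ a c j ≤ dj τ a c (j + 1) ∧ Un g (dj τ a c j) (dj τ a c (j + 1)) := by
  refine ⟨dj_mono τ a c (Nat.le_succ j), ?_⟩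
  rw [dj, dif_pos hj]
  set i : Fin d := ⟨j, hj⟩
  have ha' : τ' i a = a := by
    rw [← ha i, h2, ha i]
  have hiso : Iso a c a (τ i c) := by
    refine ⟨τ i, τ' i, fun x hx hx' => ⟨?_, hτ i _ _ hx', h2 i x⟩, fun y hy hy' => ⟨?_, ?_, h1 i y⟩,
      fun x y _ h _ => hτ i x y h, fun x y _ h _ => hτ' i x y h⟩
    · have := hτ i _ _ hx
      rwa [ha i] at this
    · have := hτ' i _ _ hy
      rwa [ha'] at this
    · have := hτ' i _ _ hy'
      rwa [h2] at this
  have h3 : Un g a (τ i c) := un_iso hiso hu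
  have h4 : a ≤ τ i c := by
    have := hτ i _ _ hac
    rwa [ha i] at this
  have h5 := iso_diam (τ i c) (dj τ a c j)
  rw [sup_comm] at h5
  exact un_iso h5 (un_sub (le_inf h4 (dj_le τ a c j)) le_rfl h3)

end

theorem spl (M : Type u) (L : Type v) [Lattice M] [Lattice L] [IsModularLattice L]
    (e : M → L) (d : ℕ) (τ τ' : Fin d → L → L)
    (he : ∀ x y, e (x ⊓ y) = e x ⊓ e y) (hle : ∀ x y, e x ≤ e y ↔ x ≤ y)
    (hτ : ∀ i x y, x ≤ y → τ i x ≤ τ i y) (hτ' : ∀ i x y, x ≤ y → τ' i x ≤ τ' i y)
    (h1 : ∀ i x, τ i (τ' i x) = x) (h2 : ∀ i x, τ' i (τ i x) = x) (hfix : ∀ i x, τ i (e x) = e x)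
    (hspan : ∀ c : L, ∃ b : M, c ≤ e b ∧ ∀ D : L, (∀ i, τ i c ≤ D) → e b ≤ D)
    (γ : Ordinal.{w}) : ∀ a b : M, St γ (e a) (e b) → St ((d : Ordinal.{w}) * γ) a b := by
  induction γ using WellFoundedLT.induction with
  | ind γ ih =>
  intro a b hst
  have hab : a ≤ b := (hle a b).1 (st_le hst)
  obtain ⟨n, c, h0, hn, h⟩ := chain_seq ((st_iff _ _ _).1 hst)
  rcases h with rfl | ⟨g, hg, hc⟩
  · have : a = b := by
      refine le_antisymm hab ((hle b a).1 (le_of_eq ?_))
      rw [← h0, ← hn]
    rw [this]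
    exact st_refl _ _
  · -- no long combs
    have key : ∀ N : ℕ, ∀ a b : M, a ≤ b → ¬ Cmb g (N + 1) (e a) (e b) →
        St ((d : Ordinal.{w}) * g + (N : Ordinal.{w})) a b := by
      intro N
      induction N with
      | zero =>
        intro a b hab h
        rw [Nat.cast_zero, add_zero]
        refine ih g hg a b ?_
        by_contra hcon
        refine h ⟨e b, e a, (hle a b).2 hab, le_rfl, le_rfl, (hle a b).2 hab, ?_, trivial⟩
        rwa [inf_eq_right.2 ((hle a b).2 hab)]
      | succ N ihN =>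
        intro a b hab h
        refine st_step (α := (d : Ordinal.{w}) * g + (N : Ordinal.{w})) ?_ hab ?_
        · refine (add_lt_add_iff_left _).2 ?_
          exact_mod_cast Nat.lt_succ_self N
        · intro u v hau hub hav hvb
          by_cases hu : St g (e u ⊓ e v) (e u)
          · left
            rw [← he] at hu
            exact st_mono le_self_add (ih g hg _ _ hu)
          · right
            refine ihN _ _ inf_le_right fun hcm => h ?_
            rw [he] at hcm
            exact ⟨e u, e v, (hle _ _).2 hau, (hle _ _).2 hub, (hle _ _).2 hav, (hle _ _).2 hvb,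
              hu, hcm⟩
    -- chains with steps `g`
    have key2 : ∀ n : ℕ, ∀ (a b : M) (c : ℕ → L), a ≤ b → c 0 = e a → c n = e b →
        (∀ i < n, c i ≤ c (i + 1) ∧ Un g (c i) (c (i + 1))) →
        St ((d : Ordinal.{w}) * g + (d : Ordinal.{w})) a b := by
      intro n
      induction n with
      | zero =>
        intro a b c hab h0 hn _
        have : a = b := by
          refine le_antisymm hab ((hle b a).1 (le_of_eq ?_))
          rw [← h0, ← hn]
        rw [this]
        exact st_refl _ _
      | succ n ihn =>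
        intro a b c hab h0 hn hc
        have hmono : ∀ m i : ℕ, i + m = n + 1 → c i ≤ c (n + 1) := by
          intro m
          induction m with
          | zero =>
            intro i hi
            rw [add_zero] at hi
            rw [hi]
          | succ m ihm =>
            intro i hi
            exact (hc i (by omega)).1.trans (ihm (i + 1) (by omega))
        have hc1 : c 1 ≤ e b := hn ▸ hmono n 1 (by omega)
        have hac1 : e a ≤ c 1 := h0 ▸ (hc 0 (by omega)).1
        have hu1 : Un g (e a) (c 1) := h0 ▸ (hc 0 (by omega)).2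
        obtain ⟨b1, hb1, hD⟩ := hspan (c 1)
        obtain ⟨b2, hb2⟩ : ∃ b2, b2 = b1 ⊓ b := ⟨_, rfl⟩
        have hc1b2 : c 1 ≤ e b2 := by
          rw [hb2, he]
          exact le_inf hb1 hc1
        have hab2 : a ≤ b2 := (hle _ _).1 (hac1.trans hc1b2)
        have hb2b : b2 ≤ b := by
          rw [hb2]
          exact inf_le_right
        have hb2D : e b2 ≤ dj τ (e a) (c 1) d := by
          refine le_trans ((hle _ _).2 ?_) (hD _ (le_dj τ (e a) (c 1)))
          rw [hb2]
          exact inf_le_left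
        -- first part
        have p1 : St ((d : Ordinal.{w}) * g + (d : Ordinal.{w})) a b2 := by
          refine key d a b2 hab2 ?_
          have h3 := law L g (fun j => dj τ (e a) (c 1) j ⊓ e b2) d fun j hj => by
            obtain ⟨h4, h5⟩ := dj_step (τ := τ) hτ hτ' h1 h2 (fun i => hfix i a) hac1 hu1 j hj
            exact ⟨inf_le_inf_right _ h4, un_inf _ h4 h5⟩
          have h6 : dj τ (e a) (c 1) 0 ⊓ e b2 = e a := inf_eq_left.2 (hac1.trans hc1b2)
          have h7 : dj τ (e a) (c 1) d ⊓ e b2 = e b2 := inf_eq_right.2 hb2D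
          simp only [h6, h7] at h3
          exact h3
        -- second part
        have p2 : St ((d : Ordinal.{w}) * g + (d : Ordinal.{w})) b2 b := by
          refine ihn b2 b (fun i => c (i + 1) ⊔ e b2) hb2b ?_ ?_ ?_
          · exact sup_eq_right.2 hc1b2
          · rw [hn]
            exact sup_eq_left.2 ((hle _ _).2 hb2b)
          · intro i hi
            obtain ⟨h4, h5⟩ := hc (i + 1) (by omega)
            exact ⟨sup_le_sup_right h4 _, un_sup _ h4 h5⟩
        exact st_trans p1 p2
    refine st_mono ?_ (key2 n a b c hab h0 hn hc)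
    calc (d : Ordinal.{w}) * g + (d : Ordinal.{w}) = (d : Ordinal.{w}) * (g + 1) := by
          rw [mul_add, mul_one]
      _ ≤ (d : Ordinal.{w}) * γ := mul_le_mul_right (Order.succ_le_of_lt hg) _

theorem pf_SPL : G_SPL.{w, v, u} := fun M L _ _ _ e d τ τ' _ he hle hτ hτ' h1 h2 hfix hspan γ a b h =>
  spl M L e d τ τ' he hle hτ hτ' h1 h2 hfix hspan γ a b h

end Pool.Agent.H8.UG
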