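import Pool.Agent.H8.UB.All
import Pool.Agent.H8.UG.SPL
import Pool.Agent.H8.UG.EMB
import Pool.Agent.H8.UG.GEN
import Pool.Agent.H1.UG.SPN
import Pool.Agent.H1.UG.FGZ
import Pool.Agent.H10.UG.FGC
import Pool.Agent.H11.UBG.RSF
import Pool.Agent.H12.UG.MOR
import Pool.Agent.H23.UG.GD2
import Pool.Agent.H23.UG.GMH
import Pool.Agent.H23.UG.TRD
import Pool.Agent.H30.UG.UNC
import Pool.Agent.H60.UG.FNL
import Pool.Agent.H60.UG.TWI
import Pool.Agent.H74.UG.GBC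
import Pool.Agent.H79.UG.GD1

/-!
# MP_404602_al: assembly of the base change theorem and of the final form of Theorem 1
-/

namespace Pool.Agent.H8.UG

open Pool.Agent.H8.UB

theorem all_GEN : G_GEN :=
  pf_GEN pf_SPL Pool.Agent.H11.UBG.pf_RSF pf_EMB Pool.Agent.H60.UG.pf_TWI Pool.Agent.H1.UG.pf_SPN

/-- Theorem 3: separable base change -/
theorem all_GBC : G_GBC :=
  Pool.Agent.H74.UG.pf_GBC all_GEN Pool.Agent.H12.UG.pf_MOR
    (Pool.Agent.H79.UG.pf_GD1 Pool.Agent.H23.UG.pf_TRD)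
    (Pool.Agent.H23.UG.pf_GD2 Pool.Agent.H23.UG.pf_TRD Pool.Agent.H23.UG.pf_GMH)
    Pool.Agent.H13.UB.pf_RIG

theorem all_UNC : G_UNC :=
  Pool.Agent.H30.UG.pf_UNC all_LSG Pool.Agent.H10.UG.pf_FGC Pool.Agent.H1.UG.pf_FGZ
    Pool.Agent.H13.UB.pf_RIG pf_MOC all_MOU

/-- Theorem 1, final form -/
theorem all_FNL : G_FNL :=
  Pool.Agent.H60.UG.pf_FNL all_FIN all_UNC all_GBC Pool.Agent.H30.UB.pf_ALE
    Pool.Agent.H13.UB.pf_RIG

end Pool.Agent.H8.UG
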