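import Pool.Agent.H8.UG.All

/-!
# MP_404602_al: separable base change does not change the infinite part
-/

open TensorProduct Ordinal

namespace Pool.Agent.H8.UG

open Pool.Agent.H8.UB Pool.Agent.H56.UDs

theorem div_omega_le (d : ℕ) (x y : Ordinal.{0}) (h : x + 1 ≤ (d : Ordinal.{0}) * (y + 1)) :
    x / ω ≤ y / ω := by
  have hd : 0 < d := by
    rcases Nat.eq_zero_or_pos d with rfl | hd
    · rw [Nat.cast_zero, zero_mul] at h
      exact absurd (lt_of_lt_of_le (Order.lt_add_one_iff.2 le_rfl) h) (not_lt_of_ge bot_le)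
    · exact hd
  obtain ⟨m, hm⟩ := lt_omega0.1 (mod_lt y omega0_ne_zero)
  have hy : y = ω * (y / ω) + m := by rw [← hm, div_add_mod]
  have h1 : (d : Ordinal.{0}) * (y + 1) = ω * (y / ω) + ((d * (m + 1) : ℕ) : Ordinal.{0}) := by
    conv_lhs => rw [hy]
    rw [add_assoc, mul_add, ← mul_assoc, natCast_mul_omega0 hd]
    congr 1
    push_cast
    rfl
  have h2 : x < ω * (y / ω + 1) := by
    rw [mul_add, mul_one]
    calc x < x + 1 := Order.lt_add_one_iff.2 le_rfl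
      _ ≤ ω * (y / ω) + ((d * (m + 1) : ℕ) : Ordinal.{0}) := h1 ▸ h
      _ < ω * (y / ω) + ω := (add_lt_add_iff_left _).2 (natCast_lt_omega0 _)
  exact Order.lt_add_one_iff.1 ((lt_mul_iff_div_lt omega0_ne_zero).1 h2)

/-- Theorem 3 with the infinite part -/
theorem bco : ∀ (k K : Type) [Field k] [Field K] [Algebra k K] [FiniteDimensional k K]
    [Algebra.IsSeparable k K], ∃ c : ℕ, (IsGalois k K → c = Module.finrank k K) ∧
    ∀ (R : Type) [Ring R] [Algebra k R] [IsNoetherianRing Rᵐᵒᵖ],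
      (UD (K ⊗[k] R) = ⊤ ↔ UD R = ⊤) ∧
      ∀ ρ ρ' : Ordinal.{0}, UD R = ρ → UD (K ⊗[k] R) = ρ' →
        ρ' + 1 ≤ (Module.finrank k K : Ordinal.{0}) * (ρ + 1) ∧
        ρ + 1 ≤ (c : Ordinal.{0}) * (ρ' + 1) ∧ ρ / ω = ρ' / ω := by
  intro k K _ _ _ _ _
  obtain ⟨c, hc, h⟩ := all_GBC k K
  refine ⟨c, hc, fun R _ _ _ => ⟨(h R).1, fun ρ ρ' h1 h2 => ?_⟩⟩
  obtain ⟨h3, h4⟩ := (h R).2 ρ ρ' h1 h2
  exact ⟨h3, h4, le_antisymm (div_omega_le c ρ ρ' h4) (div_omega_le _ ρ' ρ h3)⟩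

end Pool.Agent.H8.UG
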