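import Pool.Agent.H8.UB.Targets

/-!
# MP_404602_al: uniserial dimension and base change, definitions
-/

open CategoryTheory

namespace Pool.Agent.H8.UG

open Pool.Agent.H8.UB Pool.Agent.H56.UDs

/-- a module over `T` as a module over `S` through `f : S → T` -/
def RS {S T : Type} [Ring S] [Ring T] (_ : S →+* T) (M : Type) : Type := M

section

variable {S T : Type} [Ring S] [Ring T] (f : S →+* T)

instance (M : Type) [AddCommGroup M] : AddCommGroup (RS f M) := inferInstanceAs (AddCommGroup M)

instance (M : Type) [AddCommGroup M] [Module T M] : Module S (RS f M) := Module.compHom M f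

theorem rs_smul (M : Type) [AddCommGroup M] [Module T M] (s : S) (x : M) :
    (s • (show RS f M from x) : RS f M) = (show RS f M from f s • x) := rfl

/-- a linear map, restricted -/
def rsMap {M N : Type} [AddCommGroup M] [AddCommGroup N] [Module T M] [Module T N]
    (φ : M →ₗ[T] N) : RS f M →ₗ[S] RS f N where
  toFun := φ
  map_add' x y := φ.map_add x y
  map_smul' s x := φ.map_smul (f s) x

/-- `T` is a finitely generated left `S`-module -/
def FinHom : Prop := Module.Finite S (RS f T)

variable {f}

theorem rs_finite (hf : FinHom f) (M : Type) [AddCommGroup M] [Module T M] [Module.Finite T M] :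
    Module.Finite S (RS f M) := by
  obtain ⟨n, g, hg⟩ := Module.Finite.exists_fin' T M
  have : Module.Finite S (RS f T) := hf
  let g' : (Fin n → RS f T) →ₗ[S] RS f M :=
    { toFun := fun v => g v
      map_add' := fun x y => g.map_add x y
      map_smul' := fun s x => g.map_smul (f s) x }
  exact Module.Finite.of_surjective g' hg

/-- restriction of scalars for finitely generated modules -/
noncomputable def resF (hf : FinHom f) : FGModuleCat.{0} T ⥤ FGModuleCat.{0} S where
  obj M := haveI := rs_finite hf M; FGModuleCat.of S (RS f M)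
  map {M N} φ := haveI := rs_finite hf M; haveI := rs_finite hf N
    FGModuleCat.ofHom (rsMap f φ.hom.hom)
  map_id _ := rfl
  map_comp _ _ := rfl

/-- the subfunctor `A` evaluated on restrictions: `M ↦ A (M as an S-module)` -/
noncomputable def rsSub (hf : FinHom f) (A : Sub (UF S)) : Sub (UF T) where
  car M := show AddSubgroup ((UF T).obj M) from A.car ((resF hf).obj M)
  map_mem φ x hx := A.map_mem ((resF hf).map φ) x hx

theorem mem_rsSub (hf : FinHom f) (A : Sub (UF S)) (M : FGModuleCat.{0} T) (x : (UF T).obj M) :
    x ∈ (rsSub hf A).car M ↔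
      (show (UF S).obj ((resF hf).obj M) from x) ∈ A.car ((resF hf).obj M) := Iff.rfl

/-- ring automorphisms -/
theorem finHom_equiv (σ : T ≃+* T) : FinHom (σ : T →+* T) := by
  have h : Function.Surjective (LinearMap.toSpanSingleton T (RS (σ : T →+* T) T) (1 : T)) := by
    intro y
    refine ⟨σ.symm y, ?_⟩
    change σ (σ.symm y) * 1 = y
    rw [mul_one, RingEquiv.apply_symm_apply]
  exact Module.Finite.of_surjective _ h

/-- the situation of the general theorem: `T` is finite over `S`, `S` is a direct summand of `T` as
a bimodule, and every `S`-linear map between `T`-modules is a sum of maps which are semilinear for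
the automorphisms `σ i` of `T` over `S` -/
structure FD (f : S →+* T) (d : ℕ) (σ : Fin d → (T ≃+* T)) : Prop where
  fin : FinHom f
  ret : ∃ r : T →+ S, (∀ a t, r (f a * t) = a * r t) ∧ (∀ a t, r (t * f a) = r t * a) ∧ r 1 = 1
  fix : ∀ i a, σ i (f a) = f a
  dec : ∀ (X M : Type) [AddCommGroup X] [AddCommGroup M] [Module T X] [Module T M] (ψ : X →+ M),
    (∀ (a : S) (x : X), ψ (f a • x) = f a • ψ x) →
    ∃ φ : Fin d → (X →+ M), (∀ i t x, φ i (t • x) = σ i t • φ i x) ∧ ∀ x, ψ x = ∑ i, φ i x

end

end Pool.Agent.H8.UG
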