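import Pool.Agent.H8.UG.Targets

/-!
# MP_404602_al: function fields, further targets of the board ubg
-/

open CategoryTheory TensorProduct

namespace Pool.Agent.H8.UG

open Pool.Agent.H8.UB Pool.Agent.H56.UDs

/-- closure functions for finitely generated extensions of algebraically closed fields -/
def G_FGC : Prop := ∀ (K k : Type) [Field K] [IsAlgClosed K] [Field k] [Algebra K k],
  (⊤ : IntermediateField K k).FG → ∀ (n : ℕ) (s : SC n k), 0 < n →
  ∃ Φ : Set (Al s) → Set (Al s), CP Φ ∧ ∀ S₀ : Subring (Al s), (S₀ : Set (Al s)).Countable →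
    Cl Φ S₀ → ∃ (K₀ k₀ : Type) (_ : Field K₀) (_ : IsAlgClosed K₀) (_ : Countable K₀)
      (_ : Field k₀) (_ : Algebra K₀ k₀), (⊤ : IntermediateField K₀ k₀).FG ∧
      ∃ s₀ : SC n k₀, Nonempty (S₀ ≃+* Al s₀)

/-- finitely generated extensions of countable algebraically closed fields: countably many -/
def G_FGZ : Prop := ∃ (I : Type) (_ : Countable I) (F : I → Type) (_ : ∀ i, Field (F i))
  (_ : ∀ i, Countable (F i)), ∀ (K₀ k₀ : Type) [Field K₀] [IsAlgClosed K₀] [Countable K₀]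
    [Field k₀] [Algebra K₀ k₀], (⊤ : IntermediateField K₀ k₀).FG → ∃ i, Nonempty (k₀ ≃+* F i)

def G_UNC : Prop := ∃ β : Ordinal.{0}, β.card ≤ Cardinal.aleph0 ∧
  ∀ (K k : Type) [Field K] [IsAlgClosed K] [Field k] [Algebra K k],
    (⊤ : IntermediateField K k).FG → ∀ (n : ℕ) (s : SC n k),
    UDl (Al s) = ⊤ ∨ ∃ α : Ordinal.{0}, α < β ∧ UDl (Al s) = α

/-- Theorem 1, final form -/
def G_FNL : Prop := ∃ β : Ordinal.{0}, β.card ≤ Cardinal.aleph0 ∧
  (∀ (k : Type) [Field k] (R : Type) [Ring R] [Algebra k R] [Module.Finite k R],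
    UD (AlgebraicClosure k ⊗[k] R) = ⊤ ∨ ∃ α : Ordinal.{0}, α < β ∧ UD R = α) ∧
  ∀ (k k' K : Type) [Field k] [Field k'] [Field K] [Algebra k k'] [FiniteDimensional k k']
    [Algebra.IsSeparable k k'] [IsAlgClosed K] [Algebra K k'],
    (⊤ : IntermediateField K k').FG →
    ∀ (R : Type) [Ring R] [Algebra k R] [Module.Finite k R],
      UD R = ⊤ ∨ ∃ α : Ordinal.{0}, α < β ∧ UD R = α

end Pool.Agent.H8.UG
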